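import Pool.Agent.H31.Hoffman.Main

/-!
# The Hoffman-type bound for `k`-partite weighted `r`-graphs holds for every real `p ≥ 1`
-/

set_option autoImplicit false

namespace Pool.Agent.Results.MP_fcf2b0_co.HoffmanSmallP

open Finset Pool.Agent.H31.Hoffman

/-- The `ℓ^p` norm on `ℝ^n`. -/
noncomputable def pnorm {n : ℕ} (p : ℝ) (x : Fin n → ℝ) : ℝ := (∑ i, |x i| ^ p) ^ (1 / p)

/-- The polynomial form of the weighted `r`-graph with vertex set `Fin n`, edge set `E` and
weights `w e`, `e ∈ E`. -/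
noncomputable def form {n : ℕ} (r : ℕ) (E : Finset (Finset (Fin n))) (w : Finset (Fin n) → ℝ)
    (x : Fin n → ℝ) : ℝ :=
  (r.factorial : ℝ) * ∑ e ∈ E, w e * ∏ i ∈ e, x i

/-- The values of the polynomial form on the unit sphere of the `ℓ^p` norm. -/
def values {n : ℕ} (p : ℝ) (r : ℕ) (E : Finset (Finset (Fin n))) (w : Finset (Fin n) → ℝ) :
    Set ℝ :=
  {y | ∃ x : Fin n → ℝ, pnorm p x = 1 ∧ y = form r E w x}

/-- `λ^{(p)}`. -/
noncomputable def lam {n : ℕ} (p : ℝ) (r : ℕ) (E : Finset (Finset (Fin n)))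
    (w : Finset (Fin n) → ℝ) : ℝ := sSup (values p r E w)

/-- `λ^{(p)}_min`. -/
noncomputable def lamMin {n : ℕ} (p : ℝ) (r : ℕ) (E : Finset (Finset (Fin n)))
    (w : Finset (Fin n) → ℝ) : ℝ := sInf (values p r E w)

/-- `λ^{(p)}` and `λ^{(p)}_min` are a maximum and a minimum, the first is positive and the
second is negative. -/
def Attained {n : ℕ} (p : ℝ) (r : ℕ) (E : Finset (Finset (Fin n)))
    (w : Finset (Fin n) → ℝ) : Prop :=
  IsGreatest (values p r E w) (lam p r E w) ∧ IsLeast (values p r E w) (lamMin p r E w) ∧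
    0 < lam p r E w ∧ lamMin p r E w < 0

/-- The vertex set can be split into `k` parts so that every edge has at most one vertex in
each part. -/
def KPartite {n : ℕ} (k : ℕ) (E : Finset (Finset (Fin n))) : Prop :=
  ∃ c : Fin n → Fin k, ∀ e ∈ E, ∀ i ∈ e, ∀ j ∈ e, i ≠ j → c i ≠ c j

/-- The edge set of the complete `r`-graph `K_k^r`. -/
def complete (k r : ℕ) : Finset (Finset (Fin k)) := powersetCard r univ

theorem pnorm_eq_one {n : ℕ} {p : ℝ} (hp : 1 ≤ p) (x : Fin n → ℝ) :
    pnorm p x = 1 ↔ NN p x = 1 := by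
  have hp0 : (0 : ℝ) < p := by linarith
  have h0 : 0 ≤ NN p x := sum_nonneg fun i _ => by positivity
  have h1 : pnorm p x = NN p x ^ (1 / p) := rfl
  rw [h1]
  constructor
  · intro h
    have h2 : (NN p x ^ (1 / p)) ^ p = NN p x := by
      rw [← Real.rpow_mul h0, one_div_mul_cancel hp0.ne', Real.rpow_one]
    rw [← h2, h, Real.one_rpow]
  · intro h
    rw [h, Real.one_rpow]

theorem values_eq {n : ℕ} {p : ℝ} (hp : 1 ≤ p) (r : ℕ) (E : Finset (Finset (Fin n)))
    (w : Finset (Fin n) → ℝ) : values p r E w = form r E w '' {x | NN p x = 1} := by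
  ext y
  constructor
  · rintro ⟨x, hx, rfl⟩
    exact ⟨x, (pnorm_eq_one hp x).1 hx, rfl⟩
  · rintro ⟨x, hx, rfl⟩
    exact ⟨x, (pnorm_eq_one hp x).2 hx, rfl⟩

theorem continuous_form {n : ℕ} (r : ℕ) (E : Finset (Finset (Fin n)))
    (w : Finset (Fin n) → ℝ) : Continuous (form r E w) := by
  unfold form
  refine continuous_const.mul (continuous_finsetSum _ fun e _ => continuous_const.mul ?_)
  exact continuous_finsetProd _ fun i _ => continuous_apply i

theorem isCompact_sphere {n : ℕ} {p : ℝ} (hp : 1 ≤ p) :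
    IsCompact {x : Fin n → ℝ | NN p x = 1} :=
  (isCompact_ball hp).of_isClosed_subset (isClosed_eq (continuous_NN hp) continuous_const)
    (fun x hx => le_of_eq hx)

theorem exists_value {n : ℕ} {p : ℝ} (hp : 1 ≤ p) {r : ℕ} (hr : 1 ≤ r)
    (E : Finset (Finset (Fin n))) (w : Finset (Fin n) → ℝ) (hE : ∀ e ∈ E, e.card = r)
    (hw : ∃ e ∈ E, w e ≠ 0) :
    (∃ x, NN p x = 1 ∧ 0 < form r E w x) ∧ (∃ x, NN p x = 1 ∧ form r E w x < 0) := by
  obtain ⟨e, he, hwe⟩ := hw
  have hp0 : (0 : ℝ) < p := by linarith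
  have hr0 : (0 : ℝ) < r := by exact_mod_cast hr
  have hcard := hE e he
  have hne : e.Nonempty := by rw [← card_pos, hcard]; omega
  obtain ⟨i0, hi0⟩ := hne
  set s : ℝ := (1 / (r : ℝ)) ^ (1 / p) with hs
  have hs0 : 0 < s := Real.rpow_pos_of_pos (by positivity) _
  have hsp : s ^ p = 1 / r := by
    rw [hs, ← Real.rpow_mul (by positivity), one_div_mul_cancel hp0.ne', Real.rpow_one]
  -- the vector with sign σ at `i0`
  let X : ℝ → Fin n → ℝ := fun σ i => if i ∈ e then (if i = i0 then σ * s else s) else 0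
  have hN : ∀ σ : ℝ, |σ| = 1 → NN p (X σ) = 1 := by
    intro σ hσ
    have h1 : ∀ i, |X σ i| ^ p = if i ∈ e then 1 / (r : ℝ) else 0 := by
      intro i
      by_cases hi : i ∈ e
      · by_cases hi' : i = i0
        · simp only [X, hi, hi', hi0, if_true]
          rw [abs_mul, hσ, one_mul, abs_of_pos hs0, hsp]
        · simp only [X, hi, hi', if_true, if_false]
          rw [abs_of_pos hs0, hsp]
      · simp only [X, hi, if_false]
        rw [abs_zero, Real.zero_rpow hp0.ne']
    unfold NN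
    simp_rw [h1]
    rw [sum_ite_mem, univ_inter, sum_const, hcard, nsmul_eq_mul]
    field_simp
  have hform : ∀ σ : ℝ, form r E w (X σ) = (r.factorial : ℝ) * (w e * (σ * s ^ r)) := by
    intro σ
    unfold form
    congr 1
    rw [sum_eq_single_of_mem e he]
    · congr 1
      have h1 : ∀ i ∈ e, X σ i = (if i = i0 then σ else 1) * s := by
        intro i hi
        simp only [X, hi, if_true]
        split_ifs <;> ring
      rw [prod_congr rfl h1, prod_mul_distrib, prod_const, hcard, prod_ite_eq' e i0, if_pos hi0]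
    · intro e' he' hne'
      have h1 : ∃ i ∈ e', i ∉ e := by
        by_contra hcon
        push Not at hcon
        exact hne' (eq_of_subset_of_card_le hcon (by rw [hcard, hE e' he']))
      obtain ⟨i, hi, hi'⟩ := h1
      rw [prod_eq_zero hi (by simp [X, hi']), mul_zero]
  have hf : (0 : ℝ) < r.factorial := by exact_mod_cast r.factorial_pos
  have hsr : 0 < s ^ r := by positivity
  rcases lt_or_gt_of_ne hwe with h | h
  · refine ⟨⟨X (-1), hN _ (by simp), ?_⟩, ⟨X 1, hN _ (by simp), ?_⟩⟩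
    · rw [hform]
      have : 0 < w e * (-1 * s ^ r) := by nlinarith
      positivity
    · rw [hform]
      have : w e * (1 * s ^ r) < 0 := by nlinarith
      exact mul_neg_of_pos_of_neg hf this
  · refine ⟨⟨X 1, hN _ (by simp), ?_⟩, ⟨X (-1), hN _ (by simp), ?_⟩⟩
    · rw [hform]
      have : 0 < w e * (1 * s ^ r) := by nlinarith
      positivity
    · rw [hform]
      have : w e * (-1 * s ^ r) < 0 := by nlinarith
      exact mul_neg_of_pos_of_neg hf this

theorem attained {n : ℕ} {p : ℝ} (hp : 1 ≤ p) {r : ℕ} (hr : 1 ≤ r)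
    (E : Finset (Finset (Fin n))) (w : Finset (Fin n) → ℝ) (hE : ∀ e ∈ E, e.card = r)
    (hw : ∃ e ∈ E, w e ≠ 0) : Attained p r E w := by
  obtain ⟨⟨x1, hx1, hx1'⟩, ⟨x2, hx2, hx2'⟩⟩ := exists_value hp hr E w hE hw
  have hc : IsCompact (values p r E w) := by
    rw [values_eq hp]
    exact (isCompact_sphere hp).image (continuous_form r E w)
  have hne : (values p r E w).Nonempty := by
    rw [values_eq hp]
    exact ⟨_, x1, hx1, rfl⟩
  have m1 : form r E w x1 ∈ values p r E w := by rw [values_eq hp]; exact ⟨x1, hx1, rfl⟩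
  have m2 : form r E w x2 ∈ values p r E w := by rw [values_eq hp]; exact ⟨x2, hx2, rfl⟩
  refine ⟨hc.isGreatest_sSup hne, hc.isLeast_sInf hne, ?_, ?_⟩
  · exact lt_of_lt_of_le hx1' (le_csSup hc.bddAbove m1)
  · exact lt_of_le_of_lt (csInf_le hc.bddBelow m2) hx2'

theorem form_complete {k : ℕ} (r : ℕ) (v : Fin k → ℝ) :
    form r (complete k r) (fun _ => 1) v = (r.factorial : ℝ) * Q r (fun _ => 1) v := rfl

/-- scaling -/
theorem form_smul {n : ℕ} {r : ℕ} (E : Finset (Finset (Fin n))) (w : Finset (Fin n) → ℝ)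
    (hE : ∀ e ∈ E, e.card = r) (s : ℝ) (x : Fin n → ℝ) :
    form r E w (fun i => s * x i) = s ^ r * form r E w x := by
  unfold form
  have h : ∑ e ∈ E, w e * ∏ i ∈ e, (s * x i) = s ^ r * ∑ e ∈ E, w e * ∏ i ∈ e, x i := by
    rw [mul_sum]
    refine sum_congr rfl fun e he => ?_
    rw [prod_mul_distrib, prod_const, hE e he]
    ring
  rw [h]
  ring

theorem NN_smul {n : ℕ} {p : ℝ} (s : ℝ) (x : Fin n → ℝ) :
    NN p (fun i => s * x i) = |s| ^ p * NN p x := by
  unfold NN
  rw [mul_sum]
  refine sum_congr rfl fun i _ => ?_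
  rw [abs_mul, Real.mul_rpow (abs_nonneg _) (abs_nonneg _)]

/-- the minimum is at most every negative value on the unit ball -/
theorem lamMin_le {n : ℕ} {p : ℝ} (hp : 1 ≤ p) {r : ℕ} (hr : 1 ≤ r)
    (E : Finset (Finset (Fin n))) (w : Finset (Fin n) → ℝ) (hE : ∀ e ∈ E, e.card = r)
    (hw : ∃ e ∈ E, w e ≠ 0) {y : Fin n → ℝ} (hy : NN p y ≤ 1) (hneg : form r E w y < 0) :
    lamMin p r E w ≤ form r E w y := by
  have hp0 : (0 : ℝ) < p := by linarith
  have h0 : 0 ≤ NN p y := sum_nonneg fun i _ => by positivity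
  have hN : 0 < NN p y := by
    rcases h0.eq_or_lt with h | h
    · exfalso
      have hy0 : ∀ i, y i = 0 := by
        intro i
        have h1 : |y i| ^ p ≤ NN p y :=
          single_le_sum (f := fun i => |y i| ^ p) (fun i _ => by positivity) (mem_univ i)
        have h2 : |y i| ^ p = 0 := le_antisymm (by linarith) (by positivity)
        rw [Real.rpow_eq_zero (abs_nonneg _) hp0.ne'] at h2
        exact abs_eq_zero.1 h2
      have hf0 : form r E w y = 0 := by
        unfold form
        rw [sum_eq_zero, mul_zero]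
        intro e he
        have hne : e.Nonempty := by rw [← card_pos, hE e he]; omega
        obtain ⟨i, hi⟩ := hne
        rw [prod_eq_zero hi (hy0 i), mul_zero]
      linarith
    · exact h
  set s := (NN p y)⁻¹ ^ (1 / p) with hs
  have hs0 : 0 < s := Real.rpow_pos_of_pos (inv_pos.2 hN) _
  have hs1 : 1 ≤ s := Real.one_le_rpow ((one_le_inv₀ hN).2 hy) (by positivity)
  have hsp : s ^ p = (NN p y)⁻¹ := by
    rw [hs, ← Real.rpow_mul (inv_pos.2 hN).le, one_div_mul_cancel hp0.ne', Real.rpow_one]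
  have hN1 : NN p (fun i => s * y i) = 1 := by
    rw [NN_smul, abs_of_pos hs0, hsp, inv_mul_cancel₀ hN.ne']
  have hmem : form r E w (fun i => s * y i) ∈ values p r E w := by
    rw [values_eq hp]; exact ⟨_, hN1, rfl⟩
  refine ((attained hp hr E w hE hw).2.1.2 hmem).trans ?_
  rw [form_smul E w hE]
  have h1 : 1 ≤ s ^ r := one_le_pow₀ hs1
  nlinarith

theorem key {n k : ℕ} {p : ℝ} (hp : 1 ≤ p) {r : ℕ} (hr : 1 ≤ r)
    (E : Finset (Finset (Fin n))) (w : Finset (Fin n) → ℝ) (hE : ∀ e ∈ E, e.card = r)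
    (col : Fin n → Fin k) (hcol : ∀ e ∈ E, ∀ i ∈ e, ∀ j ∈ e, i ≠ j → col i ≠ col j)
    {c : ℝ} (hc : 0 ≤ c) {v0 : Fin k → ℝ} (hv0 : NN p v0 ≤ 1)
    (hcv : ∀ t : ℝ, 0 ≤ t → NN p (fun _ : Fin k => t) = 1 →
      Q r (fun _ => 1) v0 ≤ -c * Q r (fun _ => 1) (fun _ : Fin k => t))
    (x : Fin n → ℝ) (hx : NN p x = 1) :
    ∃ y : Fin n → ℝ, NN p y ≤ 1 ∧ form r E w y ≤ -c * form r E w x := by
  have hp0 : (0 : ℝ) < p := by linarith
  let s : Fin k → ℝ := fun a => ∑ i ∈ univ.filter (fun i => col i = a), |x i| ^ p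
  have hs0 : ∀ a, 0 ≤ s a := fun a => sum_nonneg fun i _ => by positivity
  let u : Fin k → ℝ := fun a => s a ^ (1 / p)
  have hu0 : ∀ a, 0 ≤ u a := fun a => Real.rpow_nonneg (hs0 a) _
  have hup : ∀ a, u a ^ p = s a := fun a => by
    show (s a ^ (1 / p)) ^ p = s a
    rw [← Real.rpow_mul (hs0 a), one_div_mul_cancel hp0.ne', Real.rpow_one]
  let E' : Finset (Fin k) → ℝ := fun S =>
    ∑ e ∈ E.filter (fun e => e.image col = S), w e * ∏ i ∈ e, x i
  let wH : Finset (Fin k) → ℝ := fun S => E' S / ∏ a ∈ S, u a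
  have hinj : ∀ e ∈ E, Set.InjOn col e := by
    intro e he i hi j hj hij
    by_contra hne
    exact hcol e he i hi j hj hne hij
  -- the form of a rescaled vector
  have hform : ∀ z : Fin k → ℝ, form r E w (fun i => z (col i) * x i) =
      (r.factorial : ℝ) * ∑ S ∈ powersetCard r univ, E' S * ∏ a ∈ S, z a := by
    intro z
    unfold form
    congr 1
    have hmaps : ∀ e ∈ E, e.image col ∈ powersetCard r (univ : Finset (Fin k)) := by
      intro e he
      rw [mem_powersetCard]
      exact ⟨subset_univ _, by rw [card_image_of_injOn (hinj e he), hE e he]⟩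
    rw [← sum_fiberwise_of_maps_to hmaps]
    refine sum_congr rfl fun S _ => ?_
    show _ = (∑ e ∈ E.filter (fun e => e.image col = S), w e * ∏ i ∈ e, x i) * ∏ a ∈ S, z a
    rw [sum_mul]
    refine sum_congr rfl fun e he => ?_
    obtain ⟨he1, he2⟩ := mem_filter.1 he
    rw [prod_mul_distrib, ← he2, prod_image (fun i hi j hj h => hinj e he1 hi hj h)]
    ring
  have hQ : ∀ v : Fin k → ℝ, form r E w (fun i => (v (col i) / u (col i)) * x i) =
      (r.factorial : ℝ) * Q r wH v := by
    intro v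
    rw [hform (fun a => v a / u a)]
    congr 1
    unfold Q
    refine sum_congr rfl fun S _ => ?_
    rw [prod_div_distrib]
    show E' S * (_ / _) = E' S / _ * _
    ring
  have hNu : NN p u = 1 := by
    rw [← hx]
    unfold NN
    rw [← sum_fiberwise_of_maps_to (s := univ) (t := univ) (g := col) (fun i _ => mem_univ _)
      (fun i => |x i| ^ p)]
    refine sum_congr rfl fun a _ => ?_
    rw [abs_of_nonneg (hu0 a), hup]
  obtain ⟨v, hv, hv'⟩ := main_k hp hr hc hv0 hcv wH u hu0 hNu
  have hux : (fun i => (u (col i) / u (col i)) * x i) = x := by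
    funext i
    by_cases h : u (col i) = 0
    · have h1 : s (col i) = 0 := by rw [← hup, h, Real.zero_rpow hp0.ne']
      have h2 : |x i| ^ p ≤ s (col i) :=
        single_le_sum (f := fun i => |x i| ^ p) (fun i _ => by positivity)
          (mem_filter.2 ⟨mem_univ i, rfl⟩)
      have h3 : |x i| ^ p = 0 := le_antisymm (by linarith) (by positivity)
      rw [Real.rpow_eq_zero (abs_nonneg _) hp0.ne'] at h3
      rw [abs_eq_zero.1 h3, mul_zero]
    · rw [div_self h, one_mul]
  refine ⟨fun i => (v (col i) / u (col i)) * x i, ?_, ?_⟩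
  · refine le_trans ?_ hv
    unfold NN
    rw [← sum_fiberwise_of_maps_to (s := univ) (t := univ) (g := col) (fun i _ => mem_univ _)
      (fun i => |v (col i) / u (col i) * x i| ^ p)]
    refine sum_le_sum fun a _ => ?_
    have h1 : ∑ i ∈ univ.filter (fun i => col i = a), |v (col i) / u (col i) * x i| ^ p =
        |v a / u a| ^ p * s a := by
      show _ = |v a / u a| ^ p * ∑ i ∈ univ.filter (fun i => col i = a), |x i| ^ p
      rw [mul_sum]
      refine sum_congr rfl fun i hi => ?_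
      rw [(mem_filter.1 hi).2, abs_mul, Real.mul_rpow (abs_nonneg _) (abs_nonneg _)]
    rw [h1, ← hup]
    by_cases h : u a = 0
    · rw [h, Real.zero_rpow hp0.ne', mul_zero]; positivity
    · have h2 : 0 < u a := lt_of_le_of_ne (hu0 a) (Ne.symm h)
      rw [abs_div, abs_of_pos h2, Real.div_rpow (abs_nonneg _) h2.le, div_mul_cancel₀]
      exact (Real.rpow_pos_of_pos h2 p).ne'
  · have h1 := hQ v
    have h2 := hQ u
    rw [hux] at h2
    rw [h1, h2]
    have hf : (0 : ℝ) ≤ r.factorial := by positivity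
    calc (r.factorial : ℝ) * Q r wH v ≤ (r.factorial : ℝ) * (-c * Q r wH u) :=
          mul_le_mul_of_nonneg_left hv' hf
      _ = -c * ((r.factorial : ℝ) * Q r wH u) := by ring

/-- **The Hoffman-type bound for weighted `k`-partite `r`-graphs, for every real `p ≥ 1`.** -/
theorem result (r k n : ℕ) (hr : 1 ≤ r) (p : ℝ) (hp : 1 ≤ p)
    (E : Finset (Finset (Fin n))) (w : Finset (Fin n) → ℝ) (hE : ∀ e ∈ E, e.card = r)
    (hw : ∃ e ∈ E, w e ≠ 0) (hk : KPartite k E) :
    Attained p r E w ∧ Attained p r (complete k r) (fun _ => 1) ∧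
      lam p r E w / lamMin p r E w ≥
        lam p r (complete k r) (fun _ => 1) / lamMin p r (complete k r) (fun _ => 1) := by
  obtain ⟨col, hcol⟩ := hk
  have hrk : r ≤ k := by
    obtain ⟨e, he, -⟩ := hw
    have h1 : (e.image col).card = r := by
      rw [card_image_of_injOn, hE e he]
      intro i hi j hj hij
      by_contra hne
      exact hcol e he i hi j hj hne hij
    calc r = (e.image col).card := h1.symm
      _ ≤ (univ : Finset (Fin k)).card := card_le_univ _
      _ = k := by simp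
  have hA := attained hp hr E w hE hw
  have hEK : ∀ e ∈ complete k r, e.card = r := fun e he => (mem_powersetCard.1 he).2
  have hwK : ∃ e ∈ complete k r, (fun _ : Finset (Fin k) => (1 : ℝ)) e ≠ 0 := by
    obtain ⟨e, he⟩ := powersetCard_nonempty.2 (by simpa using hrk : r ≤ (univ : Finset (Fin k)).card)
    exact ⟨e, he, one_ne_zero⟩
  have hB := attained hp hr (complete k r) (fun _ => 1) hEK hwK
  refine ⟨hA, hB, ?_⟩
  obtain ⟨⟨hL1, hL2⟩, -, hL3, hl3⟩ := hA
  obtain ⟨⟨hLK1, hLK2⟩, ⟨hlK1, hlK2⟩, hLK3, hlK3⟩ := hB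
  set L := lam p r E w
  set l := lamMin p r E w with hl
  set LK := lam p r (complete k r) (fun _ => 1)
  set lK := lamMin p r (complete k r) (fun _ => 1)
  have hf : (0 : ℝ) < r.factorial := by exact_mod_cast r.factorial_pos
  have hc : 0 < -lK / LK := div_pos (by linarith) hLK3
  rw [values_eq hp] at hL1 hLK1 hlK1
  obtain ⟨x, hx, hxL⟩ := hL1
  obtain ⟨v0, hv0, hv0l⟩ := hlK1
  have hcv : ∀ t : ℝ, 0 ≤ t → NN p (fun _ : Fin k => t) = 1 →
      Q r (fun _ => 1) v0 ≤ -(-lK / LK) * Q r (fun _ => 1) (fun _ : Fin k => t) := by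
    intro t _ hNt
    have h1 : form r (complete k r) (fun _ => 1) (fun _ => t) ≤ LK := by
      apply hLK2
      rw [values_eq hp]
      exact ⟨_, hNt, rfl⟩
    rw [form_complete] at h1 hv0l
    have h2 : (r.factorial : ℝ) * Q r (fun _ => 1) v0 ≤
        (r.factorial : ℝ) * (-(-lK / LK) * Q r (fun _ => 1) (fun _ : Fin k => t)) := by
      rw [hv0l]
      have h3 : (r.factorial : ℝ) * (-(-lK / LK) * Q r (fun _ => 1) (fun _ : Fin k => t)) =
          lK * ((r.factorial : ℝ) * Q r (fun _ => 1) (fun _ : Fin k => t) / LK) := by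
        field_simp
      rw [h3]
      have h4 : (r.factorial : ℝ) * Q r (fun _ => 1) (fun _ : Fin k => t) / LK ≤ 1 := by
        rw [div_le_one hLK3]; exact h1
      nlinarith
    exact le_of_mul_le_mul_left h2 hf
  obtain ⟨y, hy, hy'⟩ := key hp hr E w hE col hcol hc.le (le_of_eq hv0) hcv x hx
  rw [hxL] at hy'
  have hneg : form r E w y < 0 := by
    have : 0 < -lK / LK * L := mul_pos hc hL3
    linarith
  have h5 := lamMin_le hp hr E w hE hw hy hneg
  have h6 : l ≤ lK / LK * L := by
    have : -(-lK / LK) * L = lK / LK * L := by ring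
    linarith
  -- conclude
  have h7 : l * LK ≤ lK * L := by
    have := mul_le_mul_of_nonneg_right h6 hLK3.le
    have e : lK / LK * L * LK = lK * L := by field_simp
    linarith
  have h8 : L / l - LK / lK = (L * lK - LK * l) / (l * lK) := by
    have hl0 : l ≠ 0 := ne_of_lt hl3
    have hlK0 : lK ≠ 0 := ne_of_lt hlK3
    field_simp
  have h9 : 0 ≤ L / l - LK / lK := by
    rw [h8]
    exact div_nonneg (by linarith) (mul_pos_of_neg_of_neg hl3 hlK3).le
  linarith

end Pool.Agent.Results.MP_fcf2b0_co.HoffmanSmallP
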